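import Pool.Agent.R602.PP.Fin

/-!
# The product of two P-spaces need not be a P-space in ZF

The definitions are in `Pool.Agent.R602.PP.Defs`, `Pool.Agent.R598.PM.TopDefs` and
`Pool.Agent.W868.Defs`.
-/

namespace Pool.Agent.Results.MP_e864e9_lc.ProductNotPSpace

open Pool.Agent.W868 Pool.Agent.R602.PP

/-- There is a countable transitive model of ZF in which the statement PPP fails. -/
theorem result : ∃ M : Set ZFSet.{0}, M.Countable ∧ IsZF M ∧ ¬ PPP M := by
  obtain ⟨M, hM, b, A, K, L, h⟩ := exists_model
  exact ⟨M, hM, h.zf, not_PPP h⟩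

end Pool.Agent.Results.MP_e864e9_lc.ProductNotPSpace
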